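import Pool.Agent.Helper8.TDProof

/-!
MP_28efe0_co: the maximum treedepth of `P_t`-free graphs of 2-treedepth at most `k`.  The
definitions are in `Pool/Agent/Helper8/TDDefs.lean`, the proof in `Pool/Agent/Helper8/TDProof.lean`.
-/

open SimpleGraph Pool.Agent.Helper8.Treedepth

namespace Pool.Agent.Results.MP_28efe0_co.TreedepthFormula

/-- **Treedepth of `P_t`-free graphs of bounded 2-treedepth.**  For all `t ≥ 2`, `k ≥ 1` the
maximum treedepth of a `P_t`-free finite graph with 2-treedepth at most `k` equals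
`C(⌊(t-1)/2⌋ + k - 1, ⌊(t-1)/2⌋)`. -/
theorem result (t k : ℕ) (ht : 2 ≤ t) (hk : 1 ≤ k) :
    IsGreatest {d : ℕ | ∃ (V : Type) (_ : Fintype V) (G : SimpleGraph V),
      ¬ Nonempty (pathGraph t ↪g G) ∧ td2 G Finset.univ ≤ k ∧ td G Finset.univ = d}
      (Nat.choose ((t - 1) / 2 + k - 1) ((t - 1) / 2)) :=
  main t k ht hk

end Pool.Agent.Results.MP_28efe0_co.TreedepthFormula
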